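import Pool.Agent.H27.L1.H23.GZ.Targets5

/-!
# The Gaussian integral: preparations (GAU)
-/

set_option autoImplicit false

open MeasureTheory Pool.Agent.H27.L1.H34.GM Pool.Agent.H27.L1.H34.GZ

namespace Pool.Agent.H27.L1.H17.GZ

lemma gau_cont (m : ℕ) : Continuous fun z : V m => (mt z).det := by
  apply Continuous.matrix_det
  exact continuous_id

/-- the singular matrices are a null set -/
lemma gau_null (m : ℕ) : ∀ᵐ z : V m, (mt z).det ≠ 0 := by
  have hs : MeasurableSet {z : V m | (mt z).det ≠ 0} :=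
    (isOpen_ne_fun (gau_cont m) continuous_const).measurableSet
  refine ae_mem_of_ae_add_linearMap_mem
    (LinearMap.toSpanSingleton ℝ (V m) (fun i j => (1 : Matrix (Fin m) (Fin m) ℝ) i j))
    (volume : Measure ℝ) volume hs ?_
  intro z
  have hfin : ({t : ℝ | (mt (z + t • (fun i j => (1 : Matrix (Fin m) (Fin m) ℝ) i j))).det = 0} :
      Set ℝ).Finite := by
    refine ((Matrix.charpoly (-(mt z))).rootSet_finite ℝ).subset fun t ht => ?_
    rw [Polynomial.mem_rootSet]
    refine ⟨(Matrix.charpoly_monic _).ne_zero, ?_⟩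
    rw [Polynomial.coe_aeval_eq_eval, Matrix.eval_charpoly]
    have : Matrix.scalar (Fin m) t - -(mt z) =
        mt (z + t • (fun i j => (1 : Matrix (Fin m) (Fin m) ℝ) i j)) := by
      ext i j
      simp [Matrix.one_apply, Matrix.diagonal_apply]
      ring
    rw [this]
    exact ht
  have h0 := hfin.measure_zero (volume : Measure ℝ)
  rw [ae_iff]
  refine measure_mono_null (fun t ht => ?_) h0
  by_contra hne
  exact ht hne

lemma gau_prod {m : ℕ} (a : Fin m → ℂ) (k : ℕ) (hk : k < m) :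
    ∏ j : Fin m, (if (j : ℕ) < k + 1 then a j else 1) =
      (∏ j : Fin m, if (j : ℕ) < k then a j else 1) * a ⟨k, hk⟩ := by
  have h1 : ∀ j : Fin m, (if (j : ℕ) < k + 1 then a j else 1) =
      (if (j : ℕ) < k then a j else 1) * (if (⟨k, hk⟩ : Fin m) = j then a j else 1) := by
    intro j
    by_cases h : (j : ℕ) < k
    · have h2 : ¬ (⟨k, hk⟩ : Fin m) = j := by
        rintro rfl
        exact absurd h (lt_irrefl _)
      rw [if_pos h, if_pos (by omega), if_neg h2, mul_one]
    · by_cases h2 : (j : ℕ) = k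
      · have h3 : (⟨k, hk⟩ : Fin m) = j := Fin.ext h2.symm
        rw [if_neg h, if_pos (by omega), if_pos h3, one_mul]
      · have h3 : ¬ (⟨k, hk⟩ : Fin m) = j := by
          rintro rfl
          exact h2 rfl
        rw [if_neg h, if_neg (by omega), if_neg h3, one_mul]
  rw [Finset.prod_congr rfl fun j _ => h1 j, Finset.prod_mul_distrib, Finset.prod_ite_eq]
  simp

lemma gau_col {m : ℕ} (j l : Fin m) (z : V m) (c : EuclideanSpace ℝ (Fin m)) :
    col (mt (rc j z c)) l = if l = j then c else col (mt z) l := by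
  by_cases h : l = j
  · rw [if_pos h]
    ext i
    simp [col, rc, h]
  · rw [if_neg h]
    ext i
    simp [col, rc, h]

lemma gau_img {m : ℕ} (j l : Fin m) (hl : l ≤ j) (z : V m) (c : EuclideanSpace ℝ (Fin m)) :
    col (mt (rc j z c)) '' Set.Iio l = col (mt z) '' Set.Iio l := by
  refine Set.image_congr fun i hi => ?_
  rw [gau_col, if_neg (ne_of_lt (lt_of_lt_of_le hi hl))]

lemma gau_sp {m : ℕ} {S T : Set (EuclideanSpace ℝ (Fin m))} (h : S = T)
    (v : EuclideanSpace ℝ (Fin m)) :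
    (Submodule.span ℝ S).starProjection v = (Submodule.span ℝ T).starProjection v := by
  subst h
  rfl

lemma gau_oc_lt (hG : T_GSM) {m : ℕ} (j l : Fin m) (hl : l < j) (z : V m)
    (c : EuclideanSpace ℝ (Fin m)) : oc (mt (rc j z c)) l = oc (mt z) l := by
  rw [(hG m (mt (rc j z c))).2.2.2.2.2.1 l, (hG m (mt z)).2.2.2.2.2.1 l,
    gau_sp (gau_img j l hl.le z c), gau_col, if_neg hl.ne]

lemma gau_oc_eq (hG : T_GSM) {m : ℕ} (j : Fin m) (z : V m)
    (c : EuclideanSpace ℝ (Fin m)) : oc (mt (rc j z c)) j =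
      c - (Submodule.span ℝ (col (mt z) '' Set.Iio j)).starProjection c := by
  rw [(hG m (mt (rc j z c))).2.2.2.2.2.1 j, gau_sp (gau_img j j le_rfl z c), gau_col,
    if_pos rfl]

/-- the factor of the column `j` -/
noncomputable def gf {m : ℕ} (κ : Fin m → ℂ) (j : Fin m) (z : V m) : ℂ :=
  ((‖oc (mt z) j‖ : ℝ) : ℂ) ^ (κ j - ((m : ℂ) - (j : ℕ))) *
    ((Real.exp (-Real.pi * ‖col (mt z) j‖ ^ 2) : ℝ) : ℂ)

/-- the product of the first `k` factors -/
noncomputable def ff {m : ℕ} (κ : Fin m → ℂ) (k : ℕ) (z : V m) : ℂ :=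
  ∏ j : Fin m, if (j : ℕ) < k then gf κ j z else 1

/-- the entries of the columns from `k` on are in the unit interval -/
def aa (m k : ℕ) : Set (V m) := {z | ∀ j : Fin m, k ≤ (j : ℕ) → ∀ i, z i j ∈ Set.Icc (0 : ℝ) 1}

lemma aa_meas (m k : ℕ) : MeasurableSet (aa m k) := by
  unfold aa
  have : {z : V m | ∀ j : Fin m, k ≤ (j : ℕ) → ∀ i, z i j ∈ Set.Icc (0 : ℝ) 1} =
      ⋂ j : Fin m, ⋂ (_ : k ≤ (j : ℕ)), ⋂ i : Fin m, {z : V m | z i j ∈ Set.Icc (0 : ℝ) 1} := by
    ext z
    simp
  rw [this]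
  refine MeasurableSet.iInter fun j => MeasurableSet.iInter fun _ => MeasurableSet.iInter fun i => ?_
  exact ((measurable_pi_apply j).comp (measurable_pi_apply i)) measurableSet_Icc

lemma aa_zero (m : ℕ) : volume (aa m 0) = 1 := by
  have : aa m 0 = Set.univ.pi fun _ : Fin m => Set.univ.pi fun _ : Fin m => Set.Icc (0 : ℝ) 1 := by
    ext z
    simp only [aa, Set.mem_ofPred_eq, Set.mem_univ_pi]
    constructor
    · intro h i j
      exact h j (Nat.zero_le _) i
    · intro h j _ i
      exact h i j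
  rw [this, volume_pi_pi]
  simp [Real.volume_Icc_pi]

lemma aa_last (m : ℕ) : aa m m = Set.univ := by
  ext z
  simp only [aa, Set.mem_ofPred_eq, Set.mem_univ, iff_true]
  intro j hj
  exact absurd j.2 (by omega)

end Pool.Agent.H27.L1.H17.GZ
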